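import Pool.Agent.Y560.KH.Col

/-!
# A Kripke model of Heyting arithmetic no node of which satisfies existential induction or collection

There is a Kripke model of Heyting arithmetic and one purely existential formula `φ` such that the
axiom of induction for `φ`, which is forced at all nodes, is false in the classical structure at
every node; and one purely existential formula whose collection axiom fails at every node.  So no
node is a model of `IΣ₁` or of `BΣ₁`, and in particular no node is a model of Peano arithmetic.  At
the same time all true universal-existential sentences of arithmetic are true at all nodes.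

The first formula says that at least `x_0` of the programs below `x_2` halt on the input `x_1`; the
second one that a program below `x_3` gives, on the input `x_2`, the value `x_1`.
-/

set_option autoImplicit false

namespace Pool.Agent.Results.MP_bc5999_lc.NoSigmaOneInduction

open Pool.Agent.H872R3.KH Pool.Agent.Y560.KH

/-- There is a Kripke model of Heyting arithmetic such that (1) no node is a model of Peano
arithmetic; (2) there is one purely existential formula whose induction axiom is false at all nodes;
(3) there is one purely existential formula whose collection axiom fails at all nodes; (4) all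
sentences `∀ ⋯ ∀ ∃ ⋯ ∃ (t = s)` true in the natural numbers are true at all nodes. -/
theorem result : ∃ W : KModel, W.ForcesHA ∧ (∀ k : W.K, ¬ ModelsPA (W.str k)) ∧
    (∃ φ : Fm 3, IsEx φ ∧ ∀ k : W.K, ¬ Sat (W.str k) (indAx φ) (fun i => i.elim0)) ∧
    (∃ θ : Fm 4, IsEx θ ∧ ∀ k : W.K, ¬ Collects (W.str k) θ) ∧
    ∀ (n : ℕ) (φ : Fm n), IsEx φ → Sat stdN (closure n φ) (fun i => i.elim0) →
      ∀ k : W.K, Sat (W.str k) (closure n φ) (fun i => i.elim0) := by
  obtain ⟨φ, h1, h2⟩ := main
  obtain ⟨θ, h3, h4⟩ := main2
  exact ⟨model, forcesHA, fun k hk => h2 k (hk _ (Ax.ind 2 φ)), ⟨φ, h1, fun k => h2 k⟩,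
    ⟨θ, h3, fun k => h4 k⟩, fun n φ h ht k => true_pi₂ h ht k⟩

end Pool.Agent.Results.MP_bc5999_lc.NoSigmaOneInduction
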